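import Pool.Agent.W353.FB.Nat
import Pool.Agent.H126V.FC

/-! Analytic averages. -/

set_option autoImplicit false

namespace Pool.Agent.W353.FB

open Complex Filter Topology NumberField IsDedekindDomain
  Pool.Agent.W401.Cheb Pool.Agent.W540.BE Pool.Agent.W353.L1 Pool.Agent.W353.AT
  Pool.Agent.W353.SP
open Pool.Agent.H126U (VX mem_VX)
open Pool.Agent.H126U.ST Pool.Agent.H126U.JT Pool.Agent.H126V.Taub Pool.Agent.H126V.FC
open Pool.Agent.H126V.FB
open Pool.Agent.W353.NF (fixn fixn_le vx)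

/-- from natural to analytic averages, for sequences -/
theorem abel0 {c : ℕ → ℝ}
    (hc : Tendsto (fun N : ℕ => (∑ n ∈ Finset.Icc 1 N, c n) / (N : ℝ)) atTop (𝓝 0))
    (hsum : ∀ s : ℝ, 1 < s → Summable fun n : ℕ => c n * (n : ℝ) ^ (-s)) :
    Tendsto (fun s : ℝ => (s - 1) * ∑' n : ℕ, c n * (n : ℝ) ^ (-s)) (𝓝[>] 1) (𝓝 0) := by
  rw [Metric.tendsto_nhds]
  intro ε hε
  have h1 := abel_event ({()} : Finset Unit) (fun _ => c) (B := 0) le_rfl (fun η hη => by
    have h2 : Tendsto (fun N : ℕ => ((∑ n ∈ Finset.Icc 1 N, c n) / (N : ℝ)) ^ 2) atTop (𝓝 0) := by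
      have h3 := hc.pow 2
      simpa using h3
    filter_upwards [h2.eventually_lt_const hη] with N hN
    rw [Finset.sum_singleton, zero_add]
    exact hN.le) (fun _ _ s hs => hsum s hs) ((ε / 2) ^ 2) (by positivity)
  filter_upwards [h1] with s hs
  rw [Finset.sum_singleton, zero_add] at hs
  rw [Real.dist_eq, sub_zero]
  have h2 := abs_le_of_sq_le_sq' hs (by positivity)
  rw [abs_lt]
  constructor <;> linarith

section
variable {F : Type} [Field F] [NumberField F]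

/-- bounded off a finite set -/
def BdOff (S : Finset (HeightOneSpectrum (𝓞 F))) (φ : HeightOneSpectrum (𝓞 F) → ℝ) : Prop :=
  ∃ C : ℝ, 0 ≤ C ∧ ∀ v, v ∉ S → |φ v| ≤ C

theorem BdOff.of_bd {φ : HeightOneSpectrum (𝓞 F) → ℝ} (h : Bd φ)
    (S : Finset (HeightOneSpectrum (𝓞 F))) : BdOff S φ := by
  obtain ⟨B, hB⟩ := h
  exact ⟨|B|, abs_nonneg B, fun v _ => (hB v).trans (le_abs_self B)⟩

theorem LA_cf (S : Finset (HeightOneSpectrum (𝓞 F))) (φ : HeightOneSpectrum (𝓞 F) → ℝ) (N : ℕ) :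
    LA S N φ = (∑ n ∈ Finset.Icc 1 N, cf S φ n) / (N : ℝ) := by
  rw [sum_cf]
  rfl

/-- **From natural to analytic averages.** -/
theorem abel_diff {F' : Type} [Field F'] [NumberField F'] {S : Finset (HeightOneSpectrum (𝓞 F))}
    {S' : Finset (HeightOneSpectrum (𝓞 F'))} {φ : HeightOneSpectrum (𝓞 F) → ℝ}
    {φ' : HeightOneSpectrum (𝓞 F') → ℝ} (hφ : BdOff S φ) (hφ' : BdOff S' φ')
    (h : Tendsto (fun X : ℕ => LA S X φ - LA S' X φ') atTop (𝓝 0)) :
    Tendsto (fun s : ℝ => (s - 1) * DS S φ s - (s - 1) * DS S' φ' s) (𝓝[>] 1) (𝓝 0) := by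
  obtain ⟨C, hC0, hC⟩ := hφ
  obtain ⟨C', hC0', hC'⟩ := hφ'
  have h1 : ∀ s : ℝ, 1 < s → HasSum (fun n : ℕ => (cf S φ n - cf S' φ' n) * (n : ℝ) ^ (-s))
      (DS S φ s - DS S' φ' s) := by
    intro s hs
    have h2 := (hasSum_n S hC hC0 hs).sub (hasSum_n S' hC' hC0' hs)
    refine h2.congr_fun ?_ |> fun h => h
    intro n
    ring
  have h2 := abel0 (c := fun n => cf S φ n - cf S' φ' n) (by
    refine h.congr fun N => ?_
    rw [LA_cf, LA_cf, Finset.sum_sub_distrib, sub_div]) fun s hs => (h1 s hs).summable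
  refine h2.congr' ?_
  filter_upwards [self_mem_nhdsWithin] with s hs
  rw [(h1 s hs).tsum_eq]
  ring

/-- natural averages with a limit -/
theorem abel_lim {S : Finset (HeightOneSpectrum (𝓞 F))} {φ : HeightOneSpectrum (𝓞 F) → ℝ}
    (hφ : BdOff S φ) {m : ℝ} (h : Tendsto (fun X : ℕ => LA S X φ) atTop (𝓝 m)) :
    Tendsto (fun s : ℝ => (s - 1) * DS S φ s) (𝓝[>] 1) (𝓝 m) := by
  obtain ⟨C, hC0, hC⟩ := hφ
  have hz : ∀ s : ℝ, 1 < s → Summable fun n : ℕ => (n : ℝ) ^ (-s) := fun s hs =>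
    Real.summable_nat_rpow.2 (by linarith)
  have h1 : ∀ s : ℝ, 1 < s → HasSum (fun n : ℕ => (cf S φ n - m) * (n : ℝ) ^ (-s))
      (DS S φ s - m * ∑' n : ℕ, (n : ℝ) ^ (-s)) := by
    intro s hs
    have h2 := (hasSum_n S hC hC0 hs).sub ((hz s hs).hasSum.mul_left m)
    refine h2.congr_fun ?_ |> fun h => h
    intro n
    ring
  have h2 := abel0 (c := fun n => cf S φ n - m) (by
    have h3 := h.sub_const m
    rw [sub_self] at h3
    refine h3.congr' ?_
    filter_upwards [eventually_ge_atTop 1] with N hN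
    have hN0 : (N : ℝ) ≠ 0 := by
      have : N ≠ 0 := by omega
      exact_mod_cast this
    rw [LA_cf, Finset.sum_sub_distrib, Finset.sum_const, Nat.card_Icc, nsmul_eq_mul,
      Nat.add_sub_cancel, sub_div, mul_div_cancel_left₀ _ hN0]) fun s hs => (h1 s hs).summable
  have h3 : Tendsto (fun s : ℝ => m * ((s - 1) * ∑' n : ℕ, 1 / (n : ℝ) ^ s)) (𝓝[>] 1)
      (𝓝 (m * 1)) := tendsto_sub_mul_tsum_nat_rpow.const_mul m
  have h4 := h2.add h3
  rw [zero_add, mul_one] at h4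
  refine h4.congr' ?_
  filter_upwards [self_mem_nhdsWithin] with s hs
  have h5 : ∑' n : ℕ, 1 / (n : ℝ) ^ s = ∑' n : ℕ, (n : ℝ) ^ (-s) :=
    tsum_congr fun n => by rw [Real.rpow_neg (Nat.cast_nonneg _), one_div]
  rw [(h1 s hs).tsum_eq, h5]
  ring

end

section
variable (K : Type) [Field K] [NumberField K]

/-- the analytic mean values -/
noncomputable def EA (s : ℝ) (f : HeightOneSpectrum (𝓞 K) → ℝ) : ℝ := (s - 1) * DS ∅ f s

variable {K}

theorem LA_lim {f : HeightOneSpectrum (𝓞 K) → ℝ} (hf : Bd f) {m : ℝ}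
    (h : Tendsto (fun n => EN K n f) atTop (𝓝 m)) :
    Tendsto (fun X : ℕ => LA ∅ X f) atTop (𝓝 m) := by
  have h1 := (LA_EN (∅ : Finset (HeightOneSpectrum (𝓞 K))) (φ := f) hf fun _ _ => rfl).add h
  rw [zero_add] at h1
  refine h1.congr fun X => ?_
  ring

theorem EA_lim {f : HeightOneSpectrum (𝓞 K) → ℝ} (hf : Bd f) {m : ℝ}
    (h : Tendsto (fun n => EN K n f) atTop (𝓝 m)) :
    Tendsto (fun s => EA K s f) (𝓝[>] 1) (𝓝 m) :=
  abel_lim (BdOff.of_bd hf ∅) (LA_lim hf h)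

theorem summable_EA {f : HeightOneSpectrum (𝓞 K) → ℝ} (hf : Bd f) {s : ℝ} (hs : 1 < s) :
    Summable (term ∅ f s) := by
  obtain ⟨C, hC0, hC⟩ := BdOff.of_bd hf ∅
  exact summable_term ∅ hC hC0 hs

theorem term_empty (f : HeightOneSpectrum (𝓞 K) → ℝ) (s : ℝ) (v : HeightOneSpectrum (𝓞 K)) :
    term ∅ f s v = f v * Real.log (Pool.Agent.H921R2.TatePole.nm v) *
      (Pool.Agent.H921R2.TatePole.nm v : ℝ) ^ (-s) := by
  unfold term
  rw [if_neg (Finset.notMem_empty v)]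

variable (K) in
theorem mnA : Mn (𝓝[>] 1) (EA K) where
  add f g hf hg := by
    filter_upwards [self_mem_nhdsWithin] with s hs
    unfold EA DS
    rw [← mul_add, ← (summable_EA hf hs).tsum_add (summable_EA hg hs)]
    congr 1
    refine tsum_congr fun v => ?_
    rw [term_empty, term_empty, term_empty]
    ring
  smul c f s := by
    unfold EA DS
    have h1 : ∑' v, term ∅ (fun v => c * f v) s v = c * ∑' v, term ∅ f s v := by
      rw [← tsum_mul_left]
      refine tsum_congr fun v => ?_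
      rw [term_empty, term_empty]
      ring
    rw [h1]
    ring
  mono f g hf hg hfg := by
    filter_upwards [self_mem_nhdsWithin] with s hs
    have hs' : (1 : ℝ) < s := hs
    unfold EA DS
    have h0 : (0 : ℝ) ≤ s - 1 := by linarith
    have h2 : ∑' v, term ∅ f s v ≤ ∑' v, term ∅ g s v := by
      refine Summable.tsum_le_tsum (fun v => ?_) (summable_EA hf hs') (summable_EA hg hs')
      rw [term_empty, term_empty]
      have h1 : (0 : ℝ) ≤ Real.log (Pool.Agent.H921R2.TatePole.nm v) :=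
        Real.log_natCast_nonneg _
      exact mul_le_mul_of_nonneg_right (mul_le_mul_of_nonneg_right (hfg v) h1) (by positivity)
    exact mul_le_mul_of_nonneg_left h2 h0
  one := EA_lim (Bd.const 1) (mnN K).one
  fin f hf hs := EA_lim hf ((mnN K).fin f hf hs)
  cheb U _ _ hU ψ hψ c hc σ hσ := by
    classical
    let _ : Fintype (GK K ⧸ U) := Fintype.ofFinite _
    refine EA_lim ⟨∑ q, ‖ψ q‖, fun v => ?_⟩ ((mnN K).cheb U hU ψ hψ c hc σ hσ)
    refine (Complex.abs_re_le_norm _).trans ?_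
    exact Finset.single_le_sum (f := fun q : GK K ⧸ U => ‖ψ q‖) (fun q _ => norm_nonneg _)
      (Finset.mem_univ _)

variable {F : Type} [Field F] [NumberField F]

/-- logarithmic weights for the difference of two averages -/
theorem LA_diff {S : Finset (HeightOneSpectrum (𝓞 F))} {φ a : HeightOneSpectrum (𝓞 F) → ℝ}
    {g : HeightOneSpectrum (𝓞 K) → ℝ} (ha : Bd a) (hg : Bd g)
    (hφ : ∀ᶠ v in cofinite, v ∉ S → φ v = a v)
    (h : Tendsto (fun Y : ℕ => EN F Y a - EN K Y g) atTop (𝓝 0)) :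
    Tendsto (fun X : ℕ => LA S X φ - LA ∅ X g) atTop (𝓝 0) := by
  have h1 := LA_EN' S ha hφ
  have h2 := LA_EN (∅ : Finset (HeightOneSpectrum (𝓞 K))) (φ := g) hg fun _ _ => rfl
  have h3 := (h1.add h).sub h2
  rw [add_zero, sub_zero] at h3
  refine h3.congr fun X => ?_
  ring

/-- analytic averages over the primes of `F` -/
theorem DS_diff {S : Finset (HeightOneSpectrum (𝓞 F))} {φ a : HeightOneSpectrum (𝓞 F) → ℝ}
    {g : HeightOneSpectrum (𝓞 K) → ℝ} (hS : BdOff S φ) (ha : Bd a) (hg : Bd g)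
    (hφ : ∀ᶠ v in cofinite, v ∉ S → φ v = a v)
    (h : Tendsto (fun Y : ℕ => EN F Y a - EN K Y g) atTop (𝓝 0)) :
    Tendsto (fun s : ℝ => (s - 1) * DS S φ s - EA K s g) (𝓝[>] 1) (𝓝 0) :=
  abel_diff hS (BdOff.of_bd hg ∅) (LA_diff ha hg hφ h)

end

end Pool.Agent.W353.FB
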