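import Pool.Agent.W353.FB.Sup

/-! The spectral theorem for a bounded function close to an algebraic part. -/

set_option autoImplicit false

namespace Pool.Agent.W353.FB

open Complex Filter Topology ComplexConjugate NumberField IsDedekindDomain
  Pool.Agent.W401.Cheb Pool.Agent.W540.BE Pool.Agent.W353.L1 Pool.Agent.W353.AT
  Pool.Agent.W353.SP
open Pool.Agent.W353.NF (act fixn fixn_le)
open Pool.Agent.W353.TD (ch rank)

section
variable {K : Type} [Field K] [NumberField K] {ι : Type} {l : Filter ι}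
  {E : ι → (HeightOneSpectrum (𝓞 K) → ℝ) → ℝ}

/-- functions with limit `0` have mean value `0` -/
theorem hsSmall (h : Mn l E) {f : HeightOneSpectrum (𝓞 K) → ℝ} (hf : Bd f)
    (h0 : ∀ η : ℝ, 0 < η → ∀ᶠ v in cofinite, |f v| ≤ η) : Hs l E f 0 := by
  classical
  refine ⟨hf, ?_⟩
  obtain ⟨B, hB⟩ := hf
  rw [Metric.tendsto_nhds]
  intro ε hε
  set η : ℝ := ε / 4 with hη
  have hη0 : 0 < η := by positivity
  have hbad : {v | ¬ |f v| ≤ η}.Finite := by
    have := h0 η hη0
    rwa [Filter.eventually_cofinite] at this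
  set g : HeightOneSpectrum (𝓞 K) → ℝ := fun v => if |f v| ≤ η then 0 else |B| with hg
  have hgb : Bd g := ⟨|B|, fun v => by
    rw [hg]
    simp only
    split_ifs
    · rw [abs_zero]; exact abs_nonneg _
    · rw [abs_abs]⟩
  have hgf : {v | g v ≠ 0}.Finite := hbad.subset fun v hv => by
    by_contra hcon
    rw [Set.mem_ofPred_eq, not_not] at hcon
    exact hv (if_pos hcon)
  have h1 : Hs l E (fun v => η * 1 + g v) (η * 1 + 0) :=
    h.hsAdd (h.hsMul h.hsOne η) (h.hsFin hgb hgf)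
  have h2 : Hs l E (fun v => (-1) * (η * 1 + g v)) ((-1) * (η * 1 + 0)) := h.hsMul h1 (-1)
  have hfg : ∀ v, |f v| ≤ η * 1 + g v := by
    intro v
    rw [hg]
    simp only
    split_ifs with h3
    · linarith
    · have := (hB v).trans (le_abs_self B)
      linarith
  filter_upwards [h.mono f _ ⟨B, hB⟩ h1.1 fun v => (le_abs_self _).trans (hfg v),
    h.mono _ f h2.1 ⟨B, hB⟩ fun v => by
      have := (abs_le.1 (hfg v)).1
      linarith,
    h1.2.eventually_lt_const (show η * 1 + 0 < 2 * η by linarith),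
    h2.2.eventually_const_lt (show -(2 * η) < (-1) * (η * 1 + 0) by linarith)]
    with i h3 h4 h5 h6
  rw [Real.dist_eq, sub_zero, abs_lt]
  constructor <;> linarith

variable {V : Type} [AddCommGroup V] [Module ℚ V] [FiniteDimensional ℚ V]
  {ρ : Representation ℚ (GK K) V}

/-- the truncated complement of the algebraic part -/
noncomputable def cut (s x : ℝ) : ℝ := max (-s) (min s x)

theorem abs_cut {s : ℝ} (hs : 0 ≤ s) (x : ℝ) : |cut s x| ≤ s := by
  unfold cut
  rw [abs_le]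
  exact ⟨le_max_left _ _, max_le (by linarith) (min_le_left _ _)⟩

theorem cut_sub {s η x : ℝ} (hs : 0 ≤ s) (hη : 0 ≤ η) (hx : |x| ≤ s + η) : |x - cut s x| ≤ η := by
  unfold cut
  obtain ⟨h1, h2⟩ := abs_le.1 hx
  rw [abs_le]
  rcases le_total s x with h3 | h3
  · rw [min_eq_left h3, max_eq_right (by linarith)]
    constructor <;> linarith
  · rw [min_eq_right h3]
    rcases le_total (-s) x with h4 | h4
    · rw [max_eq_right h4]
      constructor <;> linarith
    · rw [max_eq_left h4]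
      constructor <;> linarith

/-- **The spectral theorem for a function close to an algebraic part.** -/
theorem spectralT (h : Mn l E) {t : HeightOneSpectrum (𝓞 K) → ℝ} (ht : Bd t)
    (hρ : ∃ U : Subgroup (GK K), IsOpen (U : Set (GK K)) ∧ ∀ u ∈ U, ρ u = 1) (s : ℕ)
    (σ : HeightOneSpectrum (𝓞 K) → GK K) (hσ : ∀ v, IsFrob v (σ v))
    (hs : ∀ η : ℝ, 0 < η → ∀ᶠ v in cofinite, |t v - ch ρ (σ v)⁻¹| ≤ s + η) {z : ℕ → ι}
    (hz : Tendsto z atTop l) :
    ∃ φ : ℕ → ℕ, StrictMono φ ∧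
      ∃ (δF : IntermediateField K (AlgebraicClosure K) → ℝ) (δA : MRep (GK K) → ℝ),
      (∀ (F : IntermediateField K (AlgebraicClosure K)) [NumberField F],
        Hs atTop (fun j => E (z (φ j))) (fun v => t v * fixn K F (σ v)) (rank ρ F - δF F)) ∧
      (∀ x, IsArtin x.2 → Hs atTop (fun j => E (z (φ j)))
        (fun v => t v * RR x.2 0 σ v) (twistRank ρ x.2 - δA x)) ∧
      (∀ S : Finset (MRep (GK K)), (∀ p ∈ S, Irr p) →
        (∀ p ∈ S, ∀ q ∈ S, p ≠ q → ¬ Sim p q) → ∑ p ∈ S, (δA p) ^ 2 ≤ (s : ℝ) ^ 2) ∧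
      (∀ (F : IntermediateField K (AlgebraicClosure K)) [NumberField F],
        ∃ S : Finset (MRep (GK K)), (∀ p ∈ S, Irr p) ∧
          (∀ p ∈ S, ∀ q ∈ S, p ≠ q → ¬ Sim p q) ∧
          (∀ x, Irr x → (∀ p ∈ S, ¬ Sim x p) → fixedDim x.2 F = 0) ∧
          δF F = ∑ p ∈ S, δA p * fixedDim p.2 F) ∧
      (∀ (c : ℕ) (η : ℝ), 0 < η → ∃ M : IntermediateField K (AlgebraicClosure K),
        FiniteDimensional K M ∧ IsGalois K M ∧
        ∀ (F : IntermediateField K (AlgebraicClosure K)) [NumberField F],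
          Module.finrank K F ≤ c → |δF F - δF (F ⊓ M)| < η) ∧
      (∀ (U : Subgroup (GK K)) [U.Normal], IsOpen (U : Set (GK K)) →
        ∀ (κ : Type) [Fintype κ] (n : κ → ℕ)
        (χ : ∀ k, Representation ℂ (GK K) (Fin (n k) → ℂ)), (∀ k, ∀ u ∈ U, χ k u = 1) →
        (∀ k, (χ k).IsIrreducible) → (∀ k k', k ≠ k' → IsEmpty ((χ k).Equiv (χ k'))) →
        ∑ k, n k ^ 2 = Nat.card (GK K ⧸ U) →
        ∀ g, ‖∑ k, (δA ⟨n k, χ k⟩ : ℂ) * (χ k).character g‖ ≤ s) := by
  classical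
  set T : HeightOneSpectrum (𝓞 K) → ℝ := fun v => cut s (t v - ch ρ (σ v)⁻¹) with hTdef
  have hT : ∀ v, |T v| ≤ (s : ℝ) := fun v => abs_cut (Nat.cast_nonneg s) _
  obtain ⟨φ, hφ, hconv⟩ := exists_sub h σ (T := T) ⟨s, hT⟩ hz
  have h' : Mn atTop fun j => E (z (φ j)) := h.comp (hz.comp hφ.tendsto_atTop)
  obtain ⟨zF, zA, h1, h2, h3, h4, h5⟩ := spectral h' hσ (Nat.cast_nonneg s) hT hconv
  have key : ∀ (g : HeightOneSpectrum (𝓞 K) → ℝ) (a b : ℝ), Bd g →
      Hs atTop (fun j => E (z (φ j))) (fun v => T v * g v) a →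
      Hs atTop (fun j => E (z (φ j))) (fun v => ch ρ (σ v)⁻¹ * g v) b →
      Hs atTop (fun j => E (z (φ j))) (fun v => t v * g v) (b + a) := by
    intro g a b hg ha hb
    have hψ : Hs atTop (fun j => E (z (φ j))) (fun v => t v * g v +
        ((-1) * (T v * g v) + (-1) * (ch ρ (σ v)⁻¹ * g v))) 0 := by
      refine hsSmall h' ((ht.mul hg).add (((Bd.const (-1)).mul ha.1).add
        ((Bd.const (-1)).mul hb.1))) fun η hη => ?_
      obtain ⟨G, hG⟩ := hg
      have hG0 : 0 < |G| + 1 := by positivity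
      filter_upwards [hs (η / (|G| + 1)) (by positivity)] with v hv
      have h6 := cut_sub (Nat.cast_nonneg s) (by positivity : 0 ≤ η / (|G| + 1)) hv
      have e : t v * g v + ((-1) * (T v * g v) + (-1) * (ch ρ (σ v)⁻¹ * g v)) =
          ((t v - ch ρ (σ v)⁻¹) - cut s (t v - ch ρ (σ v)⁻¹)) * g v := by
        rw [hTdef]
        ring
      rw [e, abs_mul]
      calc _ ≤ η / (|G| + 1) * (|G| + 1) := by
            refine mul_le_mul h6 ?_ (abs_nonneg _) (by positivity)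
            exact ((hG v).trans (le_abs_self G)).trans (by linarith)
        _ = η := div_mul_cancel₀ _ hG0.ne'
    exact (h'.hsAdd hψ (h'.hsAdd hb ha)).congr (fun v => by ring) (by ring)
  refine ⟨φ, hφ, fun F => -zF F, fun x => -zA x, fun F _ => ?_, fun x hx => ?_,
    fun S hS1 hS2 => ?_, fun F _ => ?_, fun c η hη => ?_, fun U _ hU κ _ n χ hχ hirr hne hsum g => ?_⟩
  · have h6 := h'.fixMean ρ hρ F.val σ hσ
    refine (key _ _ _ (bd_fixn σ) (h1 F) h6).congr (fun v => rfl) ?_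
    have hr : rank ρ F = Module.finrank ℚ (TD.inv ρ F.val.fieldRange.fixingSubgroup) := by
      rw [TD.inv_eq, IntermediateField.fieldRange_val]
      rfl
    rw [hr]
    ring
  · refine (key _ _ _ (bd_RR hx σ) (h2 x hx) (h'.twMean ρ hρ x hx σ hσ)).congr
      (fun v => rfl) ?_
    ring
  · simp only [neg_sq]
    exact h3 S hS1 hS2
  · obtain ⟨S, hS1, hS2, hS3, hS4⟩ := h4 F
    refine ⟨S, hS1, hS2, hS3, ?_⟩
    change -zF F = ∑ p ∈ S, -zA p * fixedDim p.2 F
    rw [hS4, ← Finset.sum_neg_distrib]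
    exact Finset.sum_congr rfl fun p _ => by ring
  · obtain ⟨M, hM1, hM2, hM3⟩ := h5 c η hη
    refine ⟨M, hM1, hM2, fun F _ hF => ?_⟩
    have h6 := hM3 F hF
    change |-zF F - -zF (F ⊓ M)| < η
    have e : -zF F - -zF (F ⊓ M) = -(zF F - zF (F ⊓ M)) := by ring
    rw [e, abs_neg]
    exact h6
  · have hfin : Finite (GK K ⧸ U) := Subgroup.quotient_finite_of_isOpen U hU
    have h6 := supLaw h' U hU χ hχ σ hσ (Nat.cast_nonneg s) hT hirr hne hsum
      (y := fun k => zA ⟨n k, χ k⟩) (fun k => h2 ⟨n k, χ k⟩ ⟨U, hU, hχ k⟩) g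
    have e : ∑ k, (((-zA ⟨n k, χ k⟩ : ℝ)) : ℂ) * (χ k).character g =
        -∑ k, ((zA ⟨n k, χ k⟩ : ℝ) : ℂ) * (χ k).character g := by
      rw [← Finset.sum_neg_distrib]
      refine Finset.sum_congr rfl fun k _ => ?_
      push_cast
      ring
    rw [e, norm_neg]
    exact h6

end

end Pool.Agent.W353.FB
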