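import Pool.Agent.W353.SP.Defs

/-!
# Fibre averages of the traces of Frobenius over all number fields: definitions

`𝒳 → 𝒴` is a fibration of varieties over a number field `K`.  It is given over an affine open part of
`𝒴` over which the fibres are smooth: this part is the set of the points `t` with
`g(t) = 0` for the polynomials `g` in `eqBase` and `h(t) ≠ 0`, and the fibre over `t` is the projective
variety with the homogeneous equations `f(t, u) = 0`, `f` in `eqFibre`.  The other fibres do not matter:
their contribution to the average at `v` is `O(q_v^{-1/2})` for `H¹`, and `O(1)` for `H²`, where the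
average is divided by `q_v`.
-/

set_option autoImplicit false

namespace Pool.Agent.W353.FB

open NumberField IsDedekindDomain Filter Topology Polynomial
open Pool.Agent.W353.TD (rank eigenvalues)
open Pool.Agent.W353.AT (IsArtin IsFrobeniusElement twistRank)
open Pool.Agent.W353.SP (Spectrum)

section
variable {R : Type} [CommRing R] {n : ℕ}

/-- The homogeneous polynomials in `X`, with coefficients in the ring `R`, give a projective variety over
every field `κ` with a homomorphism `φ : R → κ`.  If `κ` has `q` elements, this is `(q - 1)` times the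
number of its points with coordinates in `κ`: the number of the nonzero solutions of the equations. -/
noncomputable def cone (X : Set (MvPolynomial (Fin n) R)) {κ : Type} [Field κ] (φ : R →+* κ) : ℕ :=
  Nat.card {u : Fin n → κ // u ≠ 0 ∧ ∀ f ∈ X, MvPolynomial.eval₂ φ u f = 0}

/-- `a` is the trace of the geometric Frobenius on `H^i` of the projective variety over the finite
field `κ`, with `q` elements, given by `X` and `φ`, of dimension at most `r`: there are finite multisets
`β_k` of complex numbers of absolute value `q^{k/2}`, `a` is the sum of `β_i`, and for every finite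
extension of `κ`, of degree `e`, the number of the points is `∑_{k ≤ 2r} (-1)^k ∑_{z ∈ β_k} z^e`.
By the theorem of Deligne such `β_k` exist if the variety is smooth; they are unique. -/
def IsTrace (X : Set (MvPolynomial (Fin n) R)) (r i : ℕ) {κ : Type} [Field κ] (φ : R →+* κ)
    (a : ℝ) : Prop :=
  ∃ β : ℕ → Multiset ℂ, (β i).sum = a ∧
    (∀ k, ∀ z ∈ β k, ‖z‖ = (Nat.card κ : ℝ) ^ ((k : ℝ) / 2)) ∧
    ∀ (κ' : Type) [Field κ'] [Finite κ'] (θ : κ →+* κ') (e : ℕ), Nat.card κ' = Nat.card κ ^ e →
      (cone X (θ.comp φ) : ℂ) = ((Nat.card κ : ℂ) ^ e - 1) *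
        ∑ k ∈ Finset.range (2 * r + 1), (-1 : ℂ) ^ k * ((β k).map (fun z => z ^ e)).sum

end

/-- A family of projective varieties, of dimension at most `r ≥ 1`, over the base
`{t | g(t) = 0 for g in eqBase, h(t) ≠ 0}` of dimension `m`, over the number field `K`. -/
structure Fibration (K : Type) [Field K] where
  /-- the number of the coordinates of the base -/
  l : ℕ
  /-- the equations of the base -/
  eqBase : Set (MvPolynomial (Fin l) (𝓞 K))
  /-- the base is a subset of the open set `h ≠ 0` -/
  h : MvPolynomial (Fin l) (𝓞 K)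
  /-- the dimension of the base -/
  m : ℕ
  /-- the number of the homogeneous coordinates of the fibres -/
  n : ℕ
  /-- the equations of the fibres: homogeneous, with coefficients polynomials on the base -/
  eqFibre : Set (MvPolynomial (Fin n) (MvPolynomial (Fin l) (𝓞 K)))
  /-- the fibres have dimension at most `r` -/
  r : ℕ
  one_le : 1 ≤ r

section
variable {K : Type} [Field K]

/-- The points of the base with coordinates in the field `κ`. -/
def Fibration.points (f : Fibration K) {κ : Type} [Field κ] (φ : 𝓞 K →+* κ) : Set (Fin f.l → κ) :=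
  {t | (∀ g ∈ f.eqBase, MvPolynomial.eval₂ φ t g = 0) ∧ MvPolynomial.eval₂ φ t f.h ≠ 0}

/-- The fibre average: `A` is `q^{-m}` times the sum, over the points `t` of the base with coordinates
in the finite field `κ` with `q` elements, of the trace of the Frobenius on `H^i` of the fibre
over `t`. -/
def Fibration.IsAverage (f : Fibration K) (i : ℕ) {κ : Type} [Field κ] (φ : 𝓞 K →+* κ)
    (A : ℝ) : Prop :=
  ∃ a : (Fin f.l → κ) → ℝ,
    (∀ t ∈ f.points φ, IsTrace f.eqFibre f.r i (MvPolynomial.eval₂Hom φ t) (a t)) ∧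
    A = ((Nat.card κ : ℝ) ^ f.m)⁻¹ * ∑ᶠ t ∈ f.points φ, a t

/-- A relation between finite fields `κ` with a homomorphism `𝓞_K → κ` and real numbers. -/
abbrev LocalValue (K : Type) [Field K] :=
  ∀ (κ : Type) [Field κ], (𝓞 K →+* κ) → ℝ → Prop

/-- The values `z = a(B) - A = -𝔄*`: `A` is the fibre average of the traces on `H¹`, and `a(B)` the
trace on `H¹(B)`, for the projective variety `B` over `K`, of dimension at most `g`. -/
def nagaoValue (f : Fibration K) {n : ℕ} (B : Set (MvPolynomial (Fin n) (𝓞 K))) (g : ℕ) :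
    LocalValue K :=
  fun _ _ φ z => ∃ A a : ℝ, f.IsAverage 1 φ A ∧ IsTrace B g 1 φ a ∧ z = a - A

/-- The values `z = A / q = 𝔅 / q`: `A` is the fibre average of the traces on `H²`. -/
def degreeTwoValue (f : Fibration K) : LocalValue K :=
  fun κ _ φ z => ∃ A : ℝ, f.IsAverage 2 φ A ∧ z = A / Nat.card κ

/-- `z` is the value at the prime `v` of the number field `F ⊇ K`: the value at the residue
field of `v`. -/
def ValueAt (P : LocalValue K) {F : Type} [Field F] [NumberField F] [Algebra K F]
    (v : HeightOneSpectrum (𝓞 F)) (z : ℝ) : Prop :=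
  ∀ (κ : Type) [Field κ] (φ : 𝓞 F →+* κ), RingHom.ker φ = v.asIdeal →
    Nat.card κ = Ideal.absNorm v.asIdeal → P κ (φ.comp (algebraMap (𝓞 K) (𝓞 F))) z

variable {W : Type} [AddCommGroup W] [Module ℚ W]

/-- `W`, with the action `ρ` of the absolute Galois group of `K`, is a part of the values of `P`: the
action is trivial on an open subgroup, and there is a constant `C` such that for almost all primes `v`
of `K` the value at `v` is a sum of `N` complex numbers `γ_j` of absolute value at most `1`, up to
an error of absolute value at most `C q_v^{-1/2}`, and the eigenvalues of the geometric Frobenius on `W`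
are among the `γ_j`, with multiplicities. -/
def IsPartOf [NumberField K] [FiniteDimensional ℚ W] (P : LocalValue K) (N : ℕ)
    (ρ : Representation ℚ Gal(AlgebraicClosure K/K) W) : Prop :=
  (∃ U : Subgroup Gal(AlgebraicClosure K/K), IsOpen (U : Set Gal(AlgebraicClosure K/K)) ∧
    ∀ u ∈ U, ρ u = 1) ∧
  ∃ C : ℝ, ∀ᶠ v in cofinite, ∀ σ, IsFrobeniusElement v σ → ∃ (z : ℝ) (γ : Fin N → ℂ),
    ValueAt P v z ∧ (∀ j, ‖γ j‖ ≤ 1) ∧ eigenvalues (ρ σ⁻¹) ≤ Finset.univ.val.map γ ∧
      ‖(z : ℂ) - ∑ j, γ j‖ ≤ C * (Ideal.absNorm v.asIdeal : ℝ) ^ (-(1 / 2) : ℝ)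

end

/-- The laws of `Spectrum`, and the sup-norm law: let `U` be an open normal subgroup of the absolute
Galois group of `K`, that is the absolute Galois group of a finite Galois extension `M` of `K`, and let
`χ_k` be all the irreducible representations of `Gal(M/K)` (irreducible, pairwise inequivalent, trivial
on `U`, with `∑ n_k² = [M : K]`).  Then the class function `θ = ∑ y(χ_k) χ_k` on `Gal(M/K)`
satisfies `|θ(g)| ≤ s` for all `g`.  (For `K ⊆ F ⊆ M`, `δ F` is the mean value of `θ` over `Gal(M/F)`.) -/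
def BoundedSpectrum (K : Type) [Field K] (s : ℕ)
    (δ : IntermediateField K (AlgebraicClosure K) → ℝ)
    (y : ∀ n : ℕ, Representation ℂ Gal(AlgebraicClosure K/K) (Fin n → ℂ) → ℝ) : Prop :=
  Spectrum K s δ y ∧
  ∀ (U : Subgroup Gal(AlgebraicClosure K/K)) [U.Normal],
    IsOpen (U : Set Gal(AlgebraicClosure K/K)) → ∀ (κ : Type) [Fintype κ] (n : κ → ℕ)
    (χ : ∀ k, Representation ℂ Gal(AlgebraicClosure K/K) (Fin (n k) → ℂ)),
    (∀ k, ∀ u ∈ U, χ k u = 1) → (∀ k, (χ k).IsIrreducible) →
    (∀ k k', k ≠ k' → IsEmpty ((χ k).Equiv (χ k'))) →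
    ∑ k, n k ^ 2 = Nat.card (Gal(AlgebraicClosure K/K) ⧸ U) →
    ∀ g, ‖∑ k, (y (n k) (χ k) : ℂ) * (χ k).character g‖ ≤ s

/-- The average `T⁻¹ ∑_{v ∉ R, q_v ≤ T} b(v) log q_v`. -/
noncomputable def average {F : Type} [Field F] [NumberField F]
    (R : Finset (HeightOneSpectrum (𝓞 F))) (b : HeightOneSpectrum (𝓞 F) → ℝ) (T : ℕ) : ℝ :=
  (T : ℝ)⁻¹ * ∑ᶠ v ∈ {v : HeightOneSpectrum (𝓞 F) | v ∉ R ∧ Ideal.absNorm v.asIdeal ≤ T},
    b v * Real.log (Ideal.absNorm v.asIdeal : ℝ)

open Classical in
/-- `(s - 1) ∑_{v ∉ R} b(v) (log q_v) q_v^{-s}`; its limit for `s → 1+`, if it exists, is the residue of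
the Dirichlet series at `s = 1`. -/
noncomputable def residue {F : Type} [Field F] [NumberField F]
    (R : Finset (HeightOneSpectrum (𝓞 F))) (b : HeightOneSpectrum (𝓞 F) → ℝ) (s : ℝ) : ℝ :=
  (s - 1) * ∑' v : HeightOneSpectrum (𝓞 F), if v ∈ R then 0 else
    b v * Real.log (Ideal.absNorm v.asIdeal : ℝ) * (Ideal.absNorm v.asIdeal : ℝ) ^ (-s)

section
variable {K : Type} [Field K] [NumberField K] {W : Type} [AddCommGroup W] [Module ℚ W]

/-- Off the finite set `R` the numbers `b v` are bounded, and `b v` is the value at the prime `v`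
of `F`. -/
def IsSystem (P : LocalValue K) {F : Type} [Field F] [NumberField F] [Algebra K F]
    (R : Finset (HeightOneSpectrum (𝓞 F))) (b : HeightOneSpectrum (𝓞 F) → ℝ) : Prop :=
  (∀ v, v ∉ R → ValueAt P v (b v)) ∧ ∃ C : ℝ, ∀ v, v ∉ R → |b v| ≤ C

/-- Off the finite set `R`, `b v` is the value at the prime `v` of `K` times the real part of the
character of `χ` at the geometric Frobenius. -/
def IsTwistedSystem (P : LocalValue K) {n : ℕ}
    (χ : Representation ℂ Gal(AlgebraicClosure K/K) (Fin n → ℂ))
    (R : Finset (HeightOneSpectrum (𝓞 K))) (b : HeightOneSpectrum (𝓞 K) → ℝ) : Prop :=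
  ∀ v, v ∉ R → ∃ z : ℝ, ValueAt P v z ∧
    ∀ σ, IsFrobeniusElement v σ → b v = z * (χ.character σ⁻¹).re

/-- Let `s = N - dim W`.  Every sequence `T_j → ∞` has a subsequence along which the averages
`T⁻¹ ∑_{q_v ≤ T} b_v log q_v` converge, for the values `b_v` at the primes of all number fields
`F ⊇ K`, and for the values twisted by `χ`, for all Artin representations `χ` of `K`.  Let
`rank ρ F - δ F` and `twistRank ρ χ - y χ` be the limits; then `δ` and `y` satisfy the laws of
`BoundedSpectrum`. -/
def TauberianSpectrum (P : LocalValue K) (N : ℕ)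
    (ρ : Representation ℚ Gal(AlgebraicClosure K/K) W) : Prop :=
  ∀ T : ℕ → ℕ, Tendsto T atTop atTop → ∃ φ : ℕ → ℕ, StrictMono φ ∧
    ∃ (δ : IntermediateField K (AlgebraicClosure K) → ℝ)
      (y : ∀ n : ℕ, Representation ℂ Gal(AlgebraicClosure K/K) (Fin n → ℂ) → ℝ),
      (∀ (F : IntermediateField K (AlgebraicClosure K)) [NumberField F]
        (R : Finset (HeightOneSpectrum (𝓞 F))) (b : HeightOneSpectrum (𝓞 F) → ℝ),
        IsSystem P R b →
        Tendsto (fun j => average R b (T (φ j))) atTop (𝓝 ((rank ρ F : ℝ) - δ F))) ∧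
      (∀ (n : ℕ) (χ : Representation ℂ Gal(AlgebraicClosure K/K) (Fin n → ℂ)), IsArtin χ →
        ∀ (R : Finset (HeightOneSpectrum (𝓞 K))) (b : HeightOneSpectrum (𝓞 K) → ℝ),
        IsTwistedSystem P χ R b →
        Tendsto (fun j => average R b (T (φ j))) atTop (𝓝 ((twistRank ρ χ : ℝ) - y n χ))) ∧
      BoundedSpectrum K (N - Module.finrank ℚ W) δ y

/-- The same for the analytic averages: every sequence `s_j → 1+` has a subsequence along which
`(s - 1) ∑ b_v (log q_v) q_v^{-s}` converges, for the values over all number fields `F ⊇ K` and for the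
values twisted by all Artin representations `χ` of `K`, and for the limits `rank ρ F - δ F` and
`twistRank ρ χ - y χ` the laws of `BoundedSpectrum` hold. -/
def AnalyticSpectrum (P : LocalValue K) (N : ℕ)
    (ρ : Representation ℚ Gal(AlgebraicClosure K/K) W) : Prop :=
  ∀ e : ℕ → ℝ, Tendsto e atTop (𝓝[>] 1) → ∃ φ : ℕ → ℕ, StrictMono φ ∧
    ∃ (δ : IntermediateField K (AlgebraicClosure K) → ℝ)
      (y : ∀ n : ℕ, Representation ℂ Gal(AlgebraicClosure K/K) (Fin n → ℂ) → ℝ),
      (∀ (F : IntermediateField K (AlgebraicClosure K)) [NumberField F]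
        (R : Finset (HeightOneSpectrum (𝓞 F))) (b : HeightOneSpectrum (𝓞 F) → ℝ),
        IsSystem P R b →
        Tendsto (fun j => residue R b (e (φ j))) atTop (𝓝 ((rank ρ F : ℝ) - δ F))) ∧
      (∀ (n : ℕ) (χ : Representation ℂ Gal(AlgebraicClosure K/K) (Fin n → ℂ)), IsArtin χ →
        ∀ (R : Finset (HeightOneSpectrum (𝓞 K))) (b : HeightOneSpectrum (𝓞 K) → ℝ),
        IsTwistedSystem P χ R b →
        Tendsto (fun j => residue R b (e (φ j))) atTop (𝓝 ((twistRank ρ χ : ℝ) - y n χ))) ∧
      BoundedSpectrum K (N - Module.finrank ℚ W) δ y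

end

end Pool.Agent.W353.FB
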