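import Pool.Agent.W353.FB.Main

/-! Fibre averages over all number fields: the theorems. -/

set_option autoImplicit false

namespace Pool.Agent.W353.FB

open Complex Filter Topology NumberField IsDedekindDomain Polynomial
  Pool.Agent.W401.Cheb Pool.Agent.W540.BE Pool.Agent.W353.L1 Pool.Agent.W353.AT
  Pool.Agent.W353.SP
open Pool.Agent.H921R2.TatePole (kerPrime)
open Pool.Agent.H126U (VX mem_VX)
open Pool.Agent.H126U.ST Pool.Agent.H126U.JT Pool.Agent.H126V.Taub Pool.Agent.H126V.FC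
open Pool.Agent.W353.NF (act fixn fixn_le vx)
open Pool.Agent.W353.TD (ch rank)
open Pool.Agent.W353.TP (HX res)

section
variable {F : Type} [Field F] [NumberField F]

/-- the average as a finite sum -/
theorem average_eq (R : Finset (HeightOneSpectrum (𝓞 F))) (b : HeightOneSpectrum (𝓞 F) → ℝ)
    (T : ℕ) : average R b T = LA R T b := by
  classical
  unfold average LA
  have h1 : {v : HeightOneSpectrum (𝓞 F) | v ∉ R ∧ Ideal.absNorm v.asIdeal ≤ T} =
      ((VS R T : Finset (HeightOneSpectrum (𝓞 F))) : Set (HeightOneSpectrum (𝓞 F))) := by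
    ext v
    rw [Set.mem_ofPred_eq, Finset.mem_coe]
    unfold VS
    rw [Finset.mem_filter, mem_VX]
    exact ⟨fun h => ⟨h.2, h.1⟩, fun h => ⟨h.2, h.1⟩⟩
  rw [h1, finsum_mem_coe_finset, inv_mul_eq_div]
  rfl

theorem residue_eq (R : Finset (HeightOneSpectrum (𝓞 F))) (b : HeightOneSpectrum (𝓞 F) → ℝ)
    (s : ℝ) : residue R b s = (s - 1) * DS R b s := by
  classical
  unfold residue DS
  have h : ∀ v : HeightOneSpectrum (𝓞 F), (if v ∈ R then 0 else
      b v * Real.log (Ideal.absNorm v.asIdeal : ℝ) * (Ideal.absNorm v.asIdeal : ℝ) ^ (-s)) =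
      term R b s v := by
    intro v
    unfold term
    split_ifs <;> rfl
  rw [← tsum_congr h]

end

section
variable {K : Type} [Field K] [NumberField K] {W : Type} [AddCommGroup W] [Module ℚ W]
  [FiniteDimensional ℚ W] {ρ : Representation ℚ (GK K) W} {P : LocalValue K} {N : ℕ}

theorem RR0 {k : ℕ} (χ : Representation ℂ (GK K) (Fin k → ℂ))
    (σ : HeightOneSpectrum (𝓞 K) → GK K) (v : HeightOneSpectrum (𝓞 K)) :
    RR χ 0 σ v = (χ.character (σ v)⁻¹).re := by
  unfold RR zz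
  rw [Complex.ofReal_zero, zero_mul, neg_zero, Complex.cpow_zero, mul_one]

/-- the values over `F` -/
theorem exists_a {F : Type} [Field F] [NumberField F] [Algebra K F] (hu : Uniq P)
    {t : HeightOneSpectrum (𝓞 K) → ℝ} (htv : ∀ᶠ v in cofinite, ValueAt P v (t v))
    {R : Finset (HeightOneSpectrum (𝓞 F))} {b : HeightOneSpectrum (𝓞 F) → ℝ}
    (hb : IsSystem P R b) :
    ∃ a : HeightOneSpectrum (𝓞 F) → ℝ, Bd a ∧ BdOff R b ∧ (∀ᶠ v in cofinite, v ∉ R → b v = a v) ∧
      ∀ᶠ p : Nat.Primes in cofinite, ∀ ψ : 𝓞 F →+* ZMod (p : ℕ),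
        a (kerPrime p ψ).1.1 = t (vx ⟨p, res K ψ⟩) := by
  classical
  obtain ⟨hb1, C, hC⟩ := hb
  have hC' : ∀ v, v ∉ R → |b v| ≤ |C| := fun v hv => (hC v hv).trans (le_abs_self C)
  refine ⟨fun v => if v ∈ R then 0 else b v, ⟨|C|, fun v => ?_⟩, ⟨|C|, abs_nonneg C, hC'⟩,
    Filter.Eventually.of_forall fun v hv => (if_neg hv).symm, ?_⟩
  · by_cases h : v ∈ R
    · simp only [if_pos h, abs_zero]
      exact abs_nonneg C
    · simp only [if_neg h]
      exact hC' v h
  · rw [Filter.eventually_cofinite] at htv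
    filter_upwards [finite_below (F := F) R.finite_toSet, finite_below (F := K) htv]
      with p h1 h2 ψ
    have h3 : (kerPrime p ψ).1.1 ∉ R := h1 ψ
    have h4 : ValueAt P (vx (⟨p, res K ψ⟩ : HX K)) (t (vx ⟨p, res K ψ⟩)) := by
      by_contra hcon
      exact h2 (res K ψ) hcon
    simp only [if_neg h3]
    exact valueAt_compat hu (hb1 _ h3) h4

/-- the twisted values -/
theorem exists_tw (hu : Uniq P) {t : HeightOneSpectrum (𝓞 K) → ℝ} (ht : Bd t)
    (htv : ∀ᶠ v in cofinite, ValueAt P v (t v)) (σ : HeightOneSpectrum (𝓞 K) → GK K)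
    (hσ : ∀ v, IsFrob v (σ v)) {k : ℕ} {χ : Representation ℂ (GK K) (Fin k → ℂ)}
    (hχ : IsArtin χ) {R : Finset (HeightOneSpectrum (𝓞 K))} {b : HeightOneSpectrum (𝓞 K) → ℝ}
    (hb : FB.IsTwistedSystem P χ R b) :
    Bd (fun v => t v * RR χ 0 σ v) ∧ BdOff R b ∧
      ∀ᶠ v in cofinite, v ∉ R → b v = t v * RR χ 0 σ v := by
  classical
  have hbd : Bd fun v => t v * RR χ 0 σ v := ht.mul (bd_RR (x := ⟨k, χ⟩) hχ σ)
  have hev : ∀ᶠ v in cofinite, v ∉ R → b v = t v * RR χ 0 σ v := by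
    filter_upwards [htv] with v hv hvR
    obtain ⟨z, hz, hbz⟩ := hb v hvR
    rw [hbz (σ v) (hσ v), valueAt_unique hu hz hv, RR0]
  refine ⟨hbd, ?_, hev⟩
  obtain ⟨B, hB⟩ := hbd
  have hfin := hev
  rw [Filter.eventually_cofinite] at hfin
  refine ⟨|B| + ∑ v ∈ hfin.toFinset, |b v|, by positivity, fun v hv => ?_⟩
  by_cases h : b v = t v * RR χ 0 σ v
  · rw [h]
    have h1 : |t v * RR χ 0 σ v| ≤ |B| := (hB v).trans (le_abs_self B)
    have h2 : 0 ≤ ∑ v ∈ hfin.toFinset, |b v| := Finset.sum_nonneg fun _ _ => abs_nonneg _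
    linarith
  · have h1 : v ∈ hfin.toFinset := by
      rw [Set.Finite.mem_toFinset, Set.mem_ofPred_eq]
      exact fun hcon => h (hcon hv)
    have h2 : |b v| ≤ ∑ v ∈ hfin.toFinset, |b v| :=
      Finset.single_le_sum (f := fun v => |b v|) (fun v _ => abs_nonneg _) h1
    have h3 := abs_nonneg B
    linarith

/-- equivalent representations -/
theorem cong_A {ι : Type} {l : Filter ι} [l.NeBot] {E : ι → (HeightOneSpectrum (𝓞 K) → ℝ) → ℝ}
    (h : Mn l E) (hρ : ∃ U : Subgroup (GK K), IsOpen (U : Set (GK K)) ∧ ∀ u ∈ U, ρ u = 1)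
    {σ : HeightOneSpectrum (𝓞 K) → GK K} (hσ : ∀ v, IsFrob v (σ v))
    {t : HeightOneSpectrum (𝓞 K) → ℝ} {δA : MRep (GK K) → ℝ}
    (h2 : ∀ x, IsArtin x.2 → Hs l E (fun v => t v * RR x.2 0 σ v) (twistRank ρ x.2 - δA x))
    (x y : MRep (GK K)) (hx : IsArtin x.2) (hy : IsArtin y.2) (hs : Sim x y) : δA x = δA y := by
  have h6 := (h2 x hx).unique (h2 y hy) fun v => by rw [hs.RR]
  have h7 : twistRank ρ x.2 = twistRank ρ y.2 := by
    have h8 := (h.twMean ρ hρ x hx σ hσ).unique (h.twMean ρ hρ y hy σ hσ) fun v => by rw [hs.RR]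
    exact_mod_cast h8
  rw [h7] at h6
  linarith

/-- **Natural averages over all number fields.** -/
theorem tauberian (hu : Uniq P) (hP : IsPartOf P N ρ) : TauberianSpectrum P N ρ := by
  classical
  intro T hT
  choose σ hσ using exists_isFrob (F := K)
  obtain ⟨t, ht, htv, hts⟩ := exists_t hP σ hσ
  obtain ⟨φ, hφ, δF, δA, h1, h2, h3, h4, h5, h10⟩ :=
    spectralT (mnN K) ht hP.1 (N - Module.finrank ℚ W) σ hσ hts hT
  have hT' : Tendsto (fun j => T (φ j)) atTop atTop := hT.comp hφ.tendsto_atTop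
  refine ⟨φ, hφ, δF, fun k χ => δA ⟨k, χ⟩, ?_, ?_,
    to_spectrum h3 (cong_A ((mnN K).comp hT') hP.1 hσ h2) h4 h5, h10⟩
  · intro F _ R b hb
    obtain ⟨a, ha, -, hba, hcomp⟩ := exists_a hu htv hb
    have h6 := EN_FT σ hσ ht ha hcomp
    have h7 := LA_EN' R ha hba
    have h9 := ((h7.add h6).comp hT').add (h1 F).2
    rw [add_zero, zero_add] at h9
    refine h9.congr fun j => ?_
    rw [Function.comp_apply, average_eq]
    ring
  · intro k χ hχ R b hb
    obtain ⟨hbd, -, hev⟩ := exists_tw hu ht htv σ hσ hχ hb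
    have h6 := LA_EN' R hbd hev
    have h9 := (h6.comp hT').add (h2 ⟨k, χ⟩ hχ).2
    rw [zero_add] at h9
    refine h9.congr fun j => ?_
    rw [Function.comp_apply, average_eq, sub_add_cancel]

/-- **Analytic averages over all number fields.** -/
theorem analytic (hu : Uniq P) (hP : IsPartOf P N ρ) : AnalyticSpectrum P N ρ := by
  classical
  intro e he
  choose σ hσ using exists_isFrob (F := K)
  obtain ⟨t, ht, htv, hts⟩ := exists_t hP σ hσ
  obtain ⟨φ, hφ, δF, δA, h1, h2, h3, h4, h5, h10⟩ :=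
    spectralT (mnA K) ht hP.1 (N - Module.finrank ℚ W) σ hσ hts he
  have he' : Tendsto (fun j => e (φ j)) atTop (𝓝[>] 1) := he.comp hφ.tendsto_atTop
  refine ⟨φ, hφ, δF, fun k χ => δA ⟨k, χ⟩, ?_, ?_,
    to_spectrum h3 (cong_A ((mnA K).comp he') hP.1 hσ h2) h4 h5, h10⟩
  · intro F _ R b hb
    obtain ⟨a, ha, hbR, hba, hcomp⟩ := exists_a hu htv hb
    have h6 := EN_FT σ hσ ht ha hcomp
    have hg : Bd fun v => t v * (fixn K F (σ v) : ℝ) := ht.mul (bd_fixn σ)
    have h7 := DS_diff hbR ha hg hba h6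
    have h9 := (h7.comp he').add (h1 F).2
    rw [zero_add] at h9
    refine h9.congr fun j => ?_
    rw [Function.comp_apply, residue_eq, sub_add_cancel]
  · intro k χ hχ R b hb
    obtain ⟨hbd, hbR, hev⟩ := exists_tw hu ht htv σ hσ hχ hb
    have h7 := DS_diff hbR hbd hbd hev (by simp)
    have h9 := (h7.comp he').add (h2 ⟨k, χ⟩ hχ).2
    rw [zero_add] at h9
    refine h9.congr fun j => ?_
    rw [Function.comp_apply, residue_eq, sub_add_cancel]

end

end Pool.Agent.W353.FB
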