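import Pool.Agent.W353.FB.Defs
import Pool.Agent.W353.FB.Abel
import Pool.Agent.W353.SP.Main

/-! Fibre averages over all number fields: proofs. -/

set_option autoImplicit false

namespace Pool.Agent.W353.FB

open Complex Filter Topology NumberField IsDedekindDomain Polynomial
  Pool.Agent.W401.Cheb Pool.Agent.W540.BE Pool.Agent.W353.L1 Pool.Agent.W353.AT
  Pool.Agent.W353.SP
open Pool.Agent.H921R2.TatePole (kerPrime)
open Pool.Agent.H126U (VX mem_VX)
open Pool.Agent.H126U.ST Pool.Agent.H126U.JT Pool.Agent.H126V.Taub Pool.Agent.H126V.FC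
open Pool.Agent.W353.NF (act fixn fixn_le vx)
open Pool.Agent.W353.TD (ch rank eig eig_sum eig_card)
open Pool.Agent.W353.TP (HX res)

section
variable {R : Type} [CommRing R] {n : ℕ} {X : Set (MvPolynomial (Fin n) R)} {r i : ℕ}

/-- the trace is unique -/
theorem isTrace_unique (hi : i ≤ 2 * r) {κ : Type} [Field κ] [Finite κ] {φ : R →+* κ} {a a' : ℝ}
    (h : IsTrace X r i φ a) (h' : IsTrace X r i φ a') : a = a' := by
  obtain ⟨β, h1, h2, h3⟩ := h
  obtain ⟨β', h1', h2', h3'⟩ := h'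
  have hq : (1 : ℝ) < (Nat.card κ : ℝ) := by exact_mod_cast Finite.one_lt_card
  have key : β i = β' i := by
    refine Pool.Agent.W353.PV.mult_unique (D := 2 * r + 1) hq h2 h2' (fun e he => ?_) (by omega)
    obtain ⟨p, hp⟩ := CharP.exists κ
    have hpp : Fact p.Prime := ⟨CharP.char_is_prime κ p⟩
    have hne : NeZero e := ⟨by omega⟩
    have hc : Nat.card (FiniteField.Extension κ p e) = Nat.card κ ^ e :=
      FiniteField.natCard_extension κ p e
    have e1 := h3 (FiniteField.Extension κ p e) (algebraMap _ _) e hc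
    rw [h3' (FiniteField.Extension κ p e) (algebraMap _ _) e hc] at e1
    refine (mul_left_cancel₀ ?_ e1).symm
    have h4 : (1 : ℝ) < (Nat.card κ : ℝ) ^ e := one_lt_pow₀ hq (by omega)
    intro h5
    have h6 : ((Nat.card κ : ℂ) ^ e) = 1 := sub_eq_zero.1 h5
    have h7 : ((Nat.card κ : ℝ) ^ e) = 1 := by exact_mod_cast h6
    linarith
  rw [key, h1'] at h1
  exact_mod_cast h1.symm

end

section
variable {K : Type} [Field K]

theorem average_unique (f : Fibration K) {i : ℕ} (hi : i ≤ 2 * f.r) {κ : Type} [Field κ]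
    [Finite κ] {φ : 𝓞 K →+* κ} {A A' : ℝ} (h : f.IsAverage i φ A) (h' : f.IsAverage i φ A') :
    A = A' := by
  obtain ⟨a, h1, rfl⟩ := h
  obtain ⟨a', h1', rfl⟩ := h'
  congr 1
  exact finsum_mem_congr rfl fun t ht => isTrace_unique hi (h1 t ht) (h1' t ht)

/-- unique values -/
def Uniq (P : LocalValue K) : Prop :=
  ∀ (κ : Type) [Field κ] [Finite κ] (φ : 𝓞 K →+* κ) (z z' : ℝ), P κ φ z → P κ φ z' → z = z'

theorem nagao_uniq (f : Fibration K) {n : ℕ} (B : Set (MvPolynomial (Fin n) (𝓞 K))) {g : ℕ}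
    (hg : 1 ≤ g) : Uniq (nagaoValue f B g) := by
  rintro κ _ _ φ z z' ⟨A, a, h1, h2, rfl⟩ ⟨A', a', h1', h2', rfl⟩
  have h3 := f.one_le
  rw [average_unique f (by omega) h1 h1', isTrace_unique (by omega) h2 h2']

theorem degreeTwo_uniq (f : Fibration K) : Uniq (degreeTwoValue f) := by
  rintro κ _ _ φ z z' ⟨A, h1, rfl⟩ ⟨A', h1', rfl⟩
  have h3 := f.one_le
  rw [average_unique f (by omega) h1 h1']

end

section
variable {K : Type} [Field K] [NumberField K] {F : Type} [Field F] [NumberField F] [Algebra K F]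
  {P : LocalValue K}

theorem valueAt_ker {p : Nat.Primes} {ψ : 𝓞 F →+* ZMod (p : ℕ)} {z : ℝ}
    (h : ValueAt P (kerPrime p ψ).1.1 z) :
    haveI : Fact (p : ℕ).Prime := ⟨p.2⟩
    P (ZMod (p : ℕ)) (ψ.comp (algebraMap (𝓞 K) (𝓞 F))) z := by
  have : Fact (p : ℕ).Prime := ⟨p.2⟩
  refine h (ZMod (p : ℕ)) ψ rfl ?_
  rw [Nat.card_zmod]
  exact (Pool.Agent.H341R2.nm_kerPrime p ψ).symm

/-- the values at primes of degree one -/
theorem valueAt_compat (hP : Uniq P) {p : Nat.Primes} {ψ : 𝓞 F →+* ZMod (p : ℕ)} {z z' : ℝ}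
    (h : ValueAt P (kerPrime p ψ).1.1 z) (h' : ValueAt P (vx (⟨p, res K ψ⟩ : HX K)) z') :
    z = z' := by
  have : Fact (p : ℕ).Prime := ⟨p.2⟩
  have h1 := valueAt_ker h
  have h2 := valueAt_ker (F := K) (ψ := res K ψ) h'
  have h3 : ∀ φ' : 𝓞 K →+* ZMod (p : ℕ), φ' = ψ.comp (algebraMap (𝓞 K) (𝓞 F)) →
      P (ZMod (p : ℕ)) φ' z' → P (ZMod (p : ℕ)) (ψ.comp (algebraMap (𝓞 K) (𝓞 F))) z' := by
    intro φ' h4 h5
    rwa [h4] at h5
  exact hP _ _ _ _ h1 (h3 _ (RingHom.ext fun x => rfl) h2)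

theorem valueAt_unique (hP : Uniq P) {v : HeightOneSpectrum (𝓞 F)} {z z' : ℝ}
    (h : ValueAt P v z) (h' : ValueAt P v z') : z = z' := by
  obtain ⟨κ, _, _, φ, hk, hc⟩ := Pool.Agent.W353.PV.exists_ext v 1 le_rfl
  rw [pow_one] at hc
  exact hP _ _ _ _ (h κ φ hk hc) (h' κ φ hk hc)

/-- only finitely many prime numbers lie below a finite set of primes -/
theorem finite_below {S : Set (HeightOneSpectrum (𝓞 F))} (hS : S.Finite) :
    ∀ᶠ p : Nat.Primes in cofinite, ∀ ψ : 𝓞 F →+* ZMod (p : ℕ), (kerPrime p ψ).1.1 ∉ S := by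
  rw [Filter.eventually_cofinite]
  have h1 : ((fun v => nm F v) '' S).Finite := hS.image _
  have h2 : ((fun p : Nat.Primes => (p : ℕ)) ⁻¹' ((fun v => nm F v) '' S)).Finite :=
    h1.preimage (fun a _ b _ hab => Subtype.ext hab)
  refine h2.subset fun p hp => ?_
  rw [Set.mem_ofPred_eq] at hp
  push Not at hp
  obtain ⟨ψ, hψ⟩ := hp
  exact ⟨_, hψ, Pool.Agent.H341R2.nm_kerPrime p ψ⟩

end

section
variable {K : Type} [Field K] [NumberField K] {W : Type} [AddCommGroup W] [Module ℚ W]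
  [FiniteDimensional ℚ W] {ρ : Representation ℚ (GK K) W} {P : LocalValue K} {N : ℕ}

/-- the distance from the algebraic part -/
theorem dist_le {σ : GK K} {z B : ℝ} {γ : Fin N → ℂ} (hγ : ∀ j, ‖γ j‖ ≤ 1)
    (hle : eig (ρ σ⁻¹) ≤ Finset.univ.val.map γ) (hz : ‖(z : ℂ) - ∑ j, γ j‖ ≤ B) :
    |z - ch ρ σ⁻¹| ≤ ((N - Module.finrank ℚ W : ℕ) : ℝ) + B := by
  classical
  obtain ⟨δ, hδ⟩ := Multiset.le_iff_exists_add.1 hle
  have hnorm : ∀ x ∈ δ, ‖x‖ ≤ 1 := by
    intro x hx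
    have h5 : x ∈ Finset.univ.val.map γ := by
      rw [hδ]
      exact Multiset.mem_add.2 (Or.inr hx)
    obtain ⟨j, -, rfl⟩ := Multiset.mem_map.1 h5
    exact hγ j
  have hcard : δ.card = N - Module.finrank ℚ W := by
    have h5 := congrArg Multiset.card hδ
    rw [Multiset.card_map, Multiset.card_add, eig_card] at h5
    have h6 : (Finset.univ : Finset (Fin N)).val.card = N := by simp
    omega
  have hsum : ∑ j, γ j = ((LinearMap.trace ℚ W (ρ σ⁻¹) : ℚ) : ℂ) + δ.sum := by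
    have h5 := congrArg Multiset.sum hδ
    rw [Multiset.sum_add, eig_sum] at h5
    exact h5
  have hδs : ‖δ.sum‖ ≤ ((N - Module.finrank ℚ W : ℕ) : ℝ) := by
    rw [← hcard]
    have h5 : ‖δ.sum‖ ≤ (δ.map fun x => ‖x‖).sum := norm_multiset_sum_le δ
    refine h5.trans ?_
    have h6 : (δ.map fun x => ‖x‖).sum ≤ (δ.map fun x => ‖x‖).card • (1 : ℝ) := by
      refine Multiset.sum_le_card_nsmul _ _ fun x hx => ?_
      obtain ⟨y, hy, rfl⟩ := Multiset.mem_map.1 hx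
      exact hnorm y hy
    rwa [Multiset.card_map, nsmul_eq_mul, mul_one] at h6
  have key : ((z - ch ρ σ⁻¹ : ℝ) : ℂ) = δ.sum + ((z : ℂ) - ∑ j, γ j) := by
    rw [hsum, Complex.ofReal_sub, ch]
    push_cast
    ring
  have h7 : |z - ch ρ σ⁻¹| = ‖((z - ch ρ σ⁻¹ : ℝ) : ℂ)‖ := (Complex.norm_real _).symm
  rw [h7, key]
  exact (norm_add_le _ _).trans (add_le_add hδs hz)

/-- the values at the primes of `K` -/
theorem exists_t (hP : IsPartOf P N ρ) (σ : HeightOneSpectrum (𝓞 K) → GK K)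
    (hσ : ∀ v, IsFrob v (σ v)) :
    ∃ t : HeightOneSpectrum (𝓞 K) → ℝ, Bd t ∧ (∀ᶠ v in cofinite, ValueAt P v (t v)) ∧
      ∀ η : ℝ, 0 < η → ∀ᶠ v in cofinite,
        |t v - ch ρ (σ v)⁻¹| ≤ ((N - Module.finrank ℚ W : ℕ) : ℝ) + η := by
  classical
  obtain ⟨-, C, hC⟩ := hP
  have hq : ∀ v : HeightOneSpectrum (𝓞 K),
      (Ideal.absNorm v.asIdeal : ℝ) ^ (-(1 / 2) : ℝ) ≤ 1 := fun v =>
    Real.rpow_le_one_of_one_le_of_nonpos (Pool.Agent.W353.PV.one_lt_norm v).le (by norm_num)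
  have h1 : ∀ᶠ v in cofinite, ∃ z : ℝ, ValueAt P v z ∧ |z| ≤ N + |C| ∧
      |z - ch ρ (σ v)⁻¹| ≤ ((N - Module.finrank ℚ W : ℕ) : ℝ) +
        |C| * (Ideal.absNorm v.asIdeal : ℝ) ^ (-(1 / 2) : ℝ) := by
    filter_upwards [hC] with v hv
    obtain ⟨z, γ, h2, h3, h4, h5⟩ := hv (σ v) (hσ v)
    have hq0 : (0 : ℝ) ≤ (Ideal.absNorm v.asIdeal : ℝ) ^ (-(1 / 2) : ℝ) := by positivity
    have h5' : ‖(z : ℂ) - ∑ j, γ j‖ ≤ |C| * (Ideal.absNorm v.asIdeal : ℝ) ^ (-(1 / 2) : ℝ) :=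
      h5.trans (mul_le_mul_of_nonneg_right (le_abs_self C) hq0)
    refine ⟨z, h2, ?_, dist_le h3 h4 h5'⟩
    have h6 : ‖∑ j, γ j‖ ≤ (N : ℝ) := by
      refine (norm_sum_le _ _).trans ?_
      refine (Finset.sum_le_sum fun j _ => h3 j).trans ?_
      simp
    have h7 : |z| = ‖(z : ℂ)‖ := (Complex.norm_real _).symm
    have e : (z : ℂ) = ∑ j, γ j + ((z : ℂ) - ∑ j, γ j) := by ring
    rw [h7, e]
    refine (norm_add_le _ _).trans (add_le_add h6 ?_)
    refine h5'.trans ?_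
    have := mul_le_mul_of_nonneg_left (hq v) (abs_nonneg C)
    rwa [mul_one] at this
  set t : HeightOneSpectrum (𝓞 K) → ℝ := fun v =>
    if h : ∃ z : ℝ, ValueAt P v z ∧ |z| ≤ N + |C| ∧
      |z - ch ρ (σ v)⁻¹| ≤ ((N - Module.finrank ℚ W : ℕ) : ℝ) +
        |C| * (Ideal.absNorm v.asIdeal : ℝ) ^ (-(1 / 2) : ℝ) then h.choose else 0 with ht
  have hspec : ∀ v, (∃ z : ℝ, ValueAt P v z ∧ |z| ≤ N + |C| ∧
      |z - ch ρ (σ v)⁻¹| ≤ ((N - Module.finrank ℚ W : ℕ) : ℝ) +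
        |C| * (Ideal.absNorm v.asIdeal : ℝ) ^ (-(1 / 2) : ℝ)) → ValueAt P v (t v) ∧
      |t v| ≤ N + |C| ∧ |t v - ch ρ (σ v)⁻¹| ≤ ((N - Module.finrank ℚ W : ℕ) : ℝ) +
        |C| * (Ideal.absNorm v.asIdeal : ℝ) ^ (-(1 / 2) : ℝ) := by
    intro v h
    have e : t v = h.choose := by
      rw [ht]
      exact dif_pos h
    rw [e]
    exact h.choose_spec
  refine ⟨t, ⟨N + |C|, fun v => ?_⟩, ?_, fun η hη => ?_⟩
  · by_cases h : ∃ z : ℝ, ValueAt P v z ∧ |z| ≤ N + |C| ∧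
      |z - ch ρ (σ v)⁻¹| ≤ ((N - Module.finrank ℚ W : ℕ) : ℝ) +
        |C| * (Ideal.absNorm v.asIdeal : ℝ) ^ (-(1 / 2) : ℝ)
    · exact (hspec v h).2.1
    · have e : t v = 0 := by
        rw [ht]
        exact dif_neg h
      rw [e, abs_zero]
      positivity
  · filter_upwards [h1] with v hv
    exact (hspec v hv).1
  · have h2 : Tendsto (fun v : HeightOneSpectrum (𝓞 K) =>
        |C| * (nm K v : ℝ) ^ (-(1 / 2) : ℝ)) cofinite (𝓝 0) := by
      have h3 : Tendsto (fun v : HeightOneSpectrum (𝓞 K) => (nm K v : ℝ)) cofinite atTop := by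
        rw [tendsto_atTop]
        intro b
        rw [Filter.eventually_cofinite]
        refine ((upto K ⌈b⌉₊).finite_toSet).subset fun v hv => ?_
        rw [Set.mem_ofPred_eq, not_le] at hv
        rw [Finset.mem_coe, mem_upto]
        have h4 : (nm K v : ℝ) < ⌈b⌉₊ := hv.trans_le (Nat.le_ceil b)
        exact_mod_cast h4.le
      have h4 := (tendsto_rpow_neg_atTop (show (0 : ℝ) < 1 / 2 by norm_num)).comp h3
      have h5 := h4.const_mul |C|
      rw [mul_zero] at h5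
      exact h5
    filter_upwards [h1, h2.eventually_lt_const hη] with v hv hv'
    refine (hspec v hv).2.2.trans ?_
    have e : (Ideal.absNorm v.asIdeal : ℝ) = (nm K v : ℝ) := rfl
    rw [e]
    linarith

end

end Pool.Agent.W353.FB
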