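import Pool.Agent.W353.FB.Abs
import Pool.Agent.W353.SP.NatA

/-! Natural averages over the primes of extension fields. -/

set_option autoImplicit false

namespace Pool.Agent.W353.FB

open Complex Filter Topology NumberField IsDedekindDomain
  Pool.Agent.W401.Cheb Pool.Agent.W540.BE Pool.Agent.W353.L1 Pool.Agent.W353.AT
  Pool.Agent.W353.SP
open Pool.Agent.H341R2 (low chi)
open Pool.Agent.H921R2.TatePole (kerPrime)
open Pool.Agent.H126U (VX mem_VX)
open Pool.Agent.H126U.ST Pool.Agent.H126U.JT Pool.Agent.H126V.Taub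
open Pool.Agent.W353.NF (fixn fixn_le vx push_fix)
open Pool.Agent.W353.TP (HX push push_abs_le qh qh_abs res low_kerPrime)
open Pool.Agent.W353.PV (chi_one)
open Pool.Agent.W385.TT (PA PA_low PA_HS PA_push PA_finite YH HS pc)

section
variable {K F : Type} [Field K] [NumberField K] [Field F] [NumberField F] [Algebra K F]

open Classical in
/-- the function on the primes of `F` with the values at the primes of `K` below -/
noncomputable def dn (t : HeightOneSpectrum (𝓞 K) → ℝ) (w : HeightOneSpectrum (𝓞 F)) : ℝ :=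
  if h : ∃ v : HeightOneSpectrum (𝓞 K),
    v.asIdeal = w.asIdeal.comap (algebraMap (𝓞 K) (𝓞 F)) then t h.choose else 0

theorem dn_ker (t : HeightOneSpectrum (𝓞 K) → ℝ) (p : Nat.Primes) (ψ : 𝓞 F →+* ZMod (p : ℕ)) :
    dn t (kerPrime p ψ).1.1 = t (vx ⟨p, res K ψ⟩) := by
  have h : ∃ v : HeightOneSpectrum (𝓞 K),
      v.asIdeal = (kerPrime p ψ).1.1.asIdeal.comap (algebraMap (𝓞 K) (𝓞 F)) :=
    ⟨vx ⟨p, res K ψ⟩, by
      change RingHom.ker (res K ψ) = (RingHom.ker ψ).comap (algebraMap (𝓞 K) (𝓞 F))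
      rw [RingHom.comap_ker]
      rfl⟩
  unfold dn
  rw [dif_pos h]
  congr 1
  refine HeightOneSpectrum.ext ?_
  rw [h.choose_spec]
  change (RingHom.ker ψ).comap (algebraMap (𝓞 K) (𝓞 F)) = RingHom.ker (res K ψ)
  rw [RingHom.comap_ker]
  rfl

theorem bd_dn {t : HeightOneSpectrum (𝓞 K) → ℝ} (ht : Bd t) : Bd (dn (F := F) t) := by
  obtain ⟨B, hB⟩ := ht
  refine ⟨|B|, fun w => ?_⟩
  unfold dn
  split_ifs with h
  · exact (hB _).trans (le_abs_self B)
  · rw [abs_zero]
    exact abs_nonneg B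

/-- **Averages over the primes of `F` as averages over the primes of `K`.** -/
theorem EN_FT (σ : HeightOneSpectrum (𝓞 K) → GK K) (hσ : ∀ v, IsFrob v (σ v))
    {t : HeightOneSpectrum (𝓞 K) → ℝ} (ht : Bd t) {a : HeightOneSpectrum (𝓞 F) → ℝ} (ha : Bd a)
    (hcomp : ∀ᶠ p : Nat.Primes in cofinite, ∀ ψ : 𝓞 F →+* ZMod (p : ℕ),
      a (kerPrime p ψ).1.1 = t (vx ⟨p, res K ψ⟩)) :
    Tendsto (fun Y : ℕ => EN F Y a - EN K Y (fun v => t v * fixn K F (σ v))) atTop (𝓝 0) := by
  classical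
  obtain ⟨Ba, hBa⟩ := ha
  obtain ⟨Bt, hBt⟩ := ht
  have hBt0 : 0 ≤ |Bt| := abs_nonneg Bt
  have hBt' : ∀ v, |t v| ≤ |Bt| := fun v => (hBt v).trans (le_abs_self Bt)
  have h1 := PA_low (K := F) a hBa
  have hfinA : {p : Nat.Primes | ¬ ∀ ψ : 𝓞 F →+* ZMod (p : ℕ),
      a (kerPrime p ψ).1.1 = t (vx ⟨p, res K ψ⟩)}.Finite := by
    rwa [Filter.eventually_cofinite] at hcomp
  have h1' : Tendsto (fun Y : ℕ => PA (low a) Y - PA (low (dn (F := F) t)) Y) atTop (𝓝 0) := by
    have h2 := PA_finite (a := fun p => low a p - low (dn (F := F) t) p) hfinA fun p hp => by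
      rw [Set.mem_ofPred_eq, not_not] at hp
      rw [low_kerPrime, low_kerPrime, sub_eq_zero]
      exact Finset.sum_congr rfl fun ψ _ => by rw [hp ψ, dn_ker]
    refine h2.congr fun Y => ?_
    rw [Pool.Agent.W385.TT.PA_sub]
  -- over the homomorphisms of `F`
  have e1 : ∀ Y, PA (low (dn (F := F) t)) Y =
      (∑ x ∈ HS K Y, t (vx x) * push K (qh (1 : 𝓞 F)) x) / pc Y := by
    intro Y
    have h2 := PA_push (K := K) (F := F) ({()} : Finset Unit)
      (fun _ x => t (vx x)) (fun _ => (1 : 𝓞 F)) (fun _ v => dn (F := F) t v)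
      (fun _ _ p ψ => dn_ker t p ψ) Y
    have e2 : (fun v : HeightOneSpectrum (𝓞 F) => ∑ _j ∈ ({()} : Finset Unit),
        dn (F := F) t v * (chi (1 : 𝓞 F) v : ℝ)) = fun v => dn (F := F) t v := by
      funext v
      rw [Finset.sum_singleton, chi_one, Int.cast_one, mul_one]
    rw [e2] at h2
    rw [show low (dn (F := F) t) = low fun v : HeightOneSpectrum (𝓞 F) => dn (F := F) t v from rfl,
      h2]
    unfold YH
    congr 1
    refine Finset.sum_congr rfl fun x _ => ?_
    rw [Finset.sum_singleton]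
  -- the fixed embeddings
  obtain ⟨S, hS⟩ := push_fix K F
  set f : ℝ := (Module.finrank ℚ F : ℝ) with hf
  have hf0 : 0 ≤ f := by positivity
  have hind : Tendsto (fun Y : ℕ => (∑ x ∈ HS K Y, (if vx x ∈ S then (1 : ℝ) else 0)) / pc Y)
      atTop (𝓝 0) := by
    have hg : Bd (K := K) fun v => if v ∈ S then (1 : ℝ) else 0 := ⟨1, fun v => by
      simp only
      split_ifs <;> simp⟩
    have h2 := (mnN K).fin _ hg ((Set.Finite.subset S.finite_toSet) fun v hv => by
      by_contra hcon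
      apply hv
      exact if_neg hcon)
    have h3 := h2.sub (low_EN hg)
    rw [sub_zero] at h3
    refine h3.congr fun Y => ?_
    ring
  have h4 : Tendsto (fun Y : ℕ => (∑ x ∈ HS K Y, t (vx x) *
      push K (qh (1 : 𝓞 F)) x) / pc Y - (∑ x ∈ HS K Y, t (vx x) *
      fixn K F (σ (vx x))) / pc Y) atTop (𝓝 0) := by
    have h5 := hind.const_mul (|Bt| * (2 * f))
    rw [mul_zero] at h5
    refine squeeze_zero_norm (fun Y => ?_) h5
    have hpc : 0 ≤ pc Y := Pool.Agent.W385.TT.pc_nonneg Y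
    rw [← sub_div, ← Finset.sum_sub_distrib, Real.norm_eq_abs, abs_div, abs_of_nonneg hpc,
      ← mul_div_assoc]
    refine div_le_div_of_nonneg_right ?_ hpc
    rw [Finset.mul_sum]
    refine (Finset.abs_sum_le_sum_abs _ _).trans (Finset.sum_le_sum fun x _ => ?_)
    by_cases h : vx x ∈ S
    · rw [if_pos h, mul_one, ← mul_sub, abs_mul]
      have h6 : |push K (qh (1 : 𝓞 F)) x| ≤ f := by
        have := push_abs_le (K := K) (qh_abs (1 : 𝓞 F)) x
        rwa [mul_one] at this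
      have h7 : |(fixn K F (σ (vx x)) : ℝ)| ≤ f := by
        rw [abs_of_nonneg (Nat.cast_nonneg _)]
        exact fixn_le _
      have h8 : |push K (qh (1 : 𝓞 F)) x - (fixn K F (σ (vx x)) : ℝ)| ≤ 2 * f := by
        refine (abs_sub _ _).trans ?_
        linarith
      exact mul_le_mul (hBt' _) h8 (abs_nonneg _) hBt0
    · rw [hS x h _ (hσ _), sub_self, abs_zero, if_neg h, mul_zero]
  have hbd : Bd fun v => t v * (fixn K F (σ v) : ℝ) :=
    Bd.mul (f := t) (g := fun v => (fixn K F (σ v) : ℝ)) ⟨Bt, hBt⟩ (bd_fixn σ)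
  have h9 := ((h1.add h1').add h4).sub (low_EN hbd)
  simp only [add_zero, sub_zero] at h9
  refine h9.congr fun Y => ?_
  have e3 := EN_eq (F := F) Y a
  rw [e3, e1]
  ring

/-- removing finitely many primes from the average -/
theorem LA_subset {S S' : Finset (HeightOneSpectrum (𝓞 F))} (hSS : S ⊆ S')
    (φ : HeightOneSpectrum (𝓞 F) → ℝ) :
    Tendsto (fun X : ℕ => LA S X φ - LA S' X φ) atTop (𝓝 0) := by
  classical
  have h0 : Tendsto (fun X : ℕ => (∑ v ∈ S', |φ v * Real.log (nm F v)|) / (X : ℝ)) atTop (𝓝 0) :=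
    tendsto_const_nhds.div_atTop tendsto_natCast_atTop_atTop
  refine squeeze_zero_norm (fun X => ?_) h0
  unfold LA
  rw [← sub_div, Real.norm_eq_abs, abs_div, abs_of_nonneg (Nat.cast_nonneg X : (0 : ℝ) ≤ X)]
  refine div_le_div_of_nonneg_right ?_ (Nat.cast_nonneg X)
  have hsub : VS S' X ⊆ VS S X := by
    intro v hv
    unfold VS at hv ⊢
    rw [Finset.mem_filter] at hv ⊢
    exact ⟨hv.1, fun h => hv.2 (hSS h)⟩
  rw [← Finset.sum_sdiff hsub, add_sub_cancel_right]
  refine (Finset.abs_sum_le_sum_abs _ _).trans ?_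
  refine Finset.sum_le_sum_of_subset_of_nonneg (fun v hv => ?_) fun _ _ _ => abs_nonneg _
  rw [Finset.mem_sdiff] at hv
  by_contra hcon
  apply hv.2
  unfold VS at hv ⊢
  rw [Finset.mem_filter] at hv ⊢
  exact ⟨hv.1.1, hcon⟩

/-- logarithmic weights, up to finitely many primes -/
theorem LA_EN' (S : Finset (HeightOneSpectrum (𝓞 F))) {φ ψ : HeightOneSpectrum (𝓞 F) → ℝ}
    (hψ : Bd ψ) (h : ∀ᶠ v in cofinite, v ∉ S → φ v = ψ v) :
    Tendsto (fun X : ℕ => LA S X φ - EN F X ψ) atTop (𝓝 0) := by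
  classical
  rw [Filter.eventually_cofinite] at h
  set S' := S ∪ h.toFinset with hS'
  have h1 := LA_subset (F := F) (S := S) (S' := S') Finset.subset_union_left φ
  have h2 := LA_EN S' (φ := φ) hψ fun v hv => by
    rw [hS', Finset.mem_union, not_or, Set.Finite.mem_toFinset, Set.mem_ofPred_eq, not_not] at hv
    exact hv.2 hv.1
  have h3 := h1.add h2
  rw [add_zero] at h3
  refine h3.congr fun X => ?_
  ring

end

end Pool.Agent.W353.FB
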