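import Pool.Agent.W353.SP.Inst

/-! The sup-norm law for mean values. -/

set_option autoImplicit false

namespace Pool.Agent.W353.FB

open Complex Filter Topology ComplexConjugate NumberField IsDedekindDomain
  Pool.Agent.W401.Cheb Pool.Agent.W540.BE Pool.Agent.W353.L1 Pool.Agent.W353.AT
  Pool.Agent.W353.SP

section
variable {K : Type} [Field K] [NumberField K] {ι : Type} {l : Filter ι}
  {E : ι → (HeightOneSpectrum (𝓞 K) → ℝ) → ℝ}

theorem supLaw [l.NeBot] (h : Mn l E) (U : Subgroup (GK K)) [U.Normal]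
    (hU : IsOpen (U : Set (GK K))) [Finite (GK K ⧸ U)] {κ : Type} [Fintype κ] {n : κ → ℕ}
    (χ : ∀ k, Representation ℂ (GK K) (Fin (n k) → ℂ)) (hχ : ∀ k, ∀ u ∈ U, χ k u = 1)
    (σ : HeightOneSpectrum (𝓞 K) → GK K) (hσ : ∀ v, IsFrob v (σ v))
    {T : HeightOneSpectrum (𝓞 K) → ℝ} {s : ℝ} (hs : 0 ≤ s) (hT : ∀ v, |T v| ≤ s)
    (hirr : ∀ k, (χ k).IsIrreducible)
    (hne : ∀ k k', k ≠ k' → IsEmpty ((χ k).Equiv (χ k')))
    (hsum : ∑ k, n k ^ 2 = Nat.card (GK K ⧸ U)) {y : κ → ℝ}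
    (hy : ∀ k, Hs l E (fun v => T v * RR (χ k) 0 σ v) (y k)) (g : GK K) :
    ‖∑ k, (y k : ℂ) * (χ k).character g‖ ≤ s := by
  classical
  let _ : Fintype (GK K ⧸ U) := Fintype.ofFinite _
  set r : ∀ k, Representation ℂ (GK K ⧸ U) (Fin (n k) → ℂ) := fun k => qrep U (χ k) (hχ k)
    with hr
  have hirr' : ∀ k ∈ (Finset.univ : Finset κ), (r k).IsIrreducible := fun k _ =>
    qrep_irr U (χ k) (hχ k) (hirr k)
  have hne' : ∀ k ∈ (Finset.univ : Finset κ), ∀ l ∈ (Finset.univ : Finset κ), k ≠ l →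
      IsEmpty ((r k).Equiv (r l)) := by
    intro k _ l _ hkl
    rw [← not_nonempty_iff, hr, qrep_equiv U (χ k) (hχ k) (χ l) (hχ l), not_nonempty_iff]
    exact hne k l hkl
  set θ : ℂ := ∑ k, (y k : ℂ) * (χ k).character g with hθ
  set u : ℂ := if θ = 0 then 1 else conj θ / (‖θ‖ : ℂ) with hu
  have hu1 : ‖u‖ = 1 := by
    rw [hu]
    split_ifs with h
    · exact norm_one
    · rw [norm_div, Complex.norm_conj, Complex.norm_real, norm_norm,
        div_self (norm_ne_zero_iff.2 h)]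
  have huθ : (u * θ).re = ‖θ‖ := by
    rw [hu]
    split_ifs with h
    · rw [h]; simp
    · rw [div_mul_eq_mul_div, mul_comm (conj θ) θ, Complex.mul_conj, Complex.normSq_eq_norm_sq,
        ← Complex.ofReal_div, Complex.ofReal_re, sq, mul_div_assoc,
        div_self (norm_ne_zero_iff.2 h), mul_one]
  set c : κ → ℝ := fun k => (u * (χ k).character g).re with hc
  have e1 : ∑ k, c k * y k = ‖θ‖ := by
    rw [← huθ, hθ, Finset.mul_sum, Complex.re_sum]
    refine Finset.sum_congr rfl fun k _ => ?_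
    have e2 : u * ((y k : ℂ) * (χ k).character g) = (y k : ℂ) * (u * (χ k).character g) := by
      ring
    rw [e2, Complex.re_ofReal_mul, hc]
    ring
  have hRR : ∀ k v, RR (χ k) 0 σ v = ((χ k).character (σ v)⁻¹).re := by
    intro k v
    unfold RR zz
    rw [Complex.ofReal_zero, zero_mul, neg_zero, Complex.cpow_zero, mul_one]
  set f : GK K ⧸ U → ℂ := fun q => ∑ k, (c k : ℂ) * (r k).character q⁻¹ with hf
  have hfR : ∀ v, (f (QuotientGroup.mk (σ v))).re = ∑ k, c k * RR (χ k) 0 σ v := by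
    intro v
    rw [hf]
    simp only
    rw [Complex.re_sum]
    refine Finset.sum_congr rfl fun k _ => ?_
    rw [Complex.re_ofReal_mul, hRR]
    rfl
  have hfc : ∀ a x, f (x * a * x⁻¹) = f a := by
    intro a x
    rw [hf]
    simp only
    refine Finset.sum_congr rfl fun k _ => ?_
    have h1 : (x * a * x⁻¹)⁻¹ = x * a⁻¹ * x⁻¹ := by group
    rw [h1, Representation.char_conj]
  have hL : Hs l E (fun v => T v * ∑ k, c k * RR (χ k) 0 σ v) (∑ k, c k * y k) := by
    refine (h.hsSum Finset.univ fun k _ => h.hsMul (hy k) (c k)).congr (fun v => ?_) rfl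
    rw [Finset.mul_sum]
    exact Finset.sum_congr rfl fun k _ => by ring
  have hA : Hs l E (fun v => |(f (QuotientGroup.mk (σ v))).re|) (avR U fun q => |(f q).re|) := by
    refine ⟨⟨∑ q, |(f q).re|, fun v => ?_⟩, ?_⟩
    · rw [abs_abs]
      exact Finset.single_le_sum (f := fun q : GK K ⧸ U => |(f q).re|) (fun q _ => abs_nonneg _)
        (Finset.mem_univ _)
    · have h1 := h.cheb U hU (fun q => ((|(f q).re| : ℝ) : ℂ)) (fun a x => by rw [hfc]) _
        (avC_ofReal U _) σ hσ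
      refine h1.congr fun i => ?_
      congr 1
  have hle : ‖θ‖ ≤ s * avR U fun q => |(f q).re| := by
    rw [← e1]
    refine Hs.le h hL (h.hsMul hA s) fun v => ?_
    rw [← hfR]
    refine (le_abs_self _).trans ?_
    rw [abs_mul]
    exact mul_le_mul_of_nonneg_right (hT v) (abs_nonneg _)
  refine hle.trans ?_
  have h2 : avR U (fun q => |(f q).re|) ≤ 1 := by
    have h3 := comb_le Finset.univ r hirr' hne' hsum (QuotientGroup.mk g) u hu1
    unfold avR
    rw [finsum_eq_sum_of_fintype]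
    have h0 : (0 : ℝ) < Nat.card (GK K ⧸ U) := by exact_mod_cast Nat.card_pos
    calc (Nat.card (GK K ⧸ U) : ℝ)⁻¹ * ∑ q, |(f q).re|
        ≤ (Nat.card (GK K ⧸ U) : ℝ)⁻¹ * ∑ q, ‖f q‖ := by
          refine mul_le_mul_of_nonneg_left ?_ (by positivity)
          exact Finset.sum_le_sum fun q _ => Complex.abs_re_le_norm _
      _ ≤ (Nat.card (GK K ⧸ U) : ℝ)⁻¹ * Nat.card (GK K ⧸ U) :=
          mul_le_mul_of_nonneg_left h3 (by positivity)
      _ = 1 := inv_mul_cancel₀ h0.ne'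
  calc s * avR U (fun q => |(f q).re|) ≤ s * 1 := mul_le_mul_of_nonneg_left h2 hs
    _ = s := mul_one s

end

end Pool.Agent.W353.FB
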